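import Pool.Agent.J4H80.QU.Jobs

set_option autoImplicit false

/-! Job E of project QU (generalised von Neumann theorem): boxes of integers. -/

namespace Pool.Agent.J4H80.QU.VN

open Finset

/-- box norms of order at least one are nonnegative -/
theorem Box_nonneg {α : Type} [Fintype α] : ∀ (k : ℕ) (Φ : (Fin (k + 1) → α) → ℝ), 0 ≤ Box (k + 1) Φ
  | 0, Φ => by
    have e : Box 1 Φ = (∑ t : α, Φ (Fin.cons t Fin.elim0)) ^ 2 := by
      unfold Box
      simp only [Box]
      rw [sq, Finset.sum_mul_sum]
    rw [e]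
    positivity
  | k + 1, Φ => by
    unfold Box
    exact Finset.sum_nonneg fun t _ => Finset.sum_nonneg fun t' _ => Box_nonneg k _

/-- points of a box with one coordinate restricted -/
theorem card_coord {d : ℕ} {N : ℕ} {a b : Fin d → ℤ} (hab : ∀ l, -(N : ℤ) ≤ a l ∧ b l ≤ N) (l : Fin d)
    (I : Finset ℤ) :
    ((Finset.Icc a b).filter (fun x => x l ∈ I)).card ≤ I.card * (2 * N + 1) ^ (d - 1) := by
  classical
  have h1 : (Finset.Icc a b).filter (fun x => x l ∈ I) ⊆
      Fintype.piFinset (Function.update (fun _ : Fin d => Finset.Icc (-(N : ℤ)) N) l I) := by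
    intro x hx
    rw [Finset.mem_filter, Finset.mem_Icc] at hx
    rw [Fintype.mem_piFinset]
    intro l'
    by_cases h : l' = l
    · subst h
      rw [Function.update_self]
      exact hx.2
    · rw [Function.update_of_ne h, Finset.mem_Icc]
      exact ⟨(hab l').1.trans (hx.1.1 l'), (hx.1.2 l').trans (hab l').2⟩
  refine (Finset.card_le_card h1).trans ?_
  rw [Fintype.card_piFinset]
  have h2 : ∀ l' : Fin d, (Function.update (fun _ : Fin d => Finset.Icc (-(N : ℤ)) N) l I l').card =
      Function.update (fun _ : Fin d => 2 * N + 1) l I.card l' := by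
    intro l'
    by_cases h : l' = l
    · subst h
      rw [Function.update_self, Function.update_self]
    · rw [Function.update_of_ne h, Function.update_of_ne h, Int.card_Icc]
      omega
  rw [Finset.prod_congr rfl fun l' _ => h2 l', Finset.prod_update_of_mem (Finset.mem_univ l),
    Finset.prod_const]
  refine le_of_eq ?_
  congr 2
  rw [← Finset.erase_eq, Finset.card_erase_of_mem (Finset.mem_univ l), Finset.card_univ, Fintype.card_fin]

/-- the points which leave a box by a translation -/
theorem card_leave {d : ℕ} {N W : ℕ} {a b w : Fin d → ℤ} (hab : ∀ l, -(N : ℤ) ≤ a l ∧ b l ≤ N)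
    (hw : ∀ l, |w l| ≤ (W : ℤ)) :
    (Finset.Icc a b \ Finset.Icc (a + w) (b + w)).card ≤ d * (2 * W) * (2 * N + 1) ^ (d - 1) := by
  classical
  have h1 : Finset.Icc a b \ Finset.Icc (a + w) (b + w) ⊆ Finset.univ.biUnion (fun l : Fin d =>
      (Finset.Icc a b).filter (fun x => x l ∈ Finset.Ico (a l) (a l + W) ∪ Finset.Ioc (b l - W) (b l))) := by
    intro x hx
    rw [Finset.mem_sdiff, Finset.mem_Icc, Finset.mem_Icc] at hx
    rw [Finset.mem_biUnion]
    by_contra hcon
    push Not at hcon
    refine hx.2 ⟨fun l => ?_, fun l => ?_⟩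
    · have h2 := hcon l (Finset.mem_univ l)
      rw [Finset.mem_filter, not_and, Finset.mem_Icc] at h2
      have h3 := h2 hx.1
      rw [Finset.mem_union, Finset.mem_Ico, Finset.mem_Ioc] at h3
      push Not at h3
      have h4 := h3.1 (hx.1.1 l)
      have h5 := (abs_le.1 (hw l)).2
      simp only [Pi.add_apply]
      linarith
    · have h2 := hcon l (Finset.mem_univ l)
      rw [Finset.mem_filter, not_and, Finset.mem_Icc] at h2
      have h3 := h2 hx.1
      rw [Finset.mem_union, Finset.mem_Ico, Finset.mem_Ioc] at h3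
      push Not at h3
      have h5 := (abs_le.1 (hw l)).1
      simp only [Pi.add_apply]
      by_contra h6
      rw [not_le] at h6
      have h7 : b l - (W : ℤ) < x l := by linarith
      exact absurd (hx.1.2 l) (not_le.2 (h3.2 h7))
  refine (Finset.card_le_card h1).trans ?_
  refine Finset.card_biUnion_le.trans ?_
  have h2 : ∀ l : Fin d, ((Finset.Icc a b).filter
      (fun x => x l ∈ Finset.Ico (a l) (a l + W) ∪ Finset.Ioc (b l - W) (b l))).card ≤
      (2 * W) * (2 * N + 1) ^ (d - 1) := by
    intro l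
    refine (card_coord hab l _).trans ?_
    gcongr
    refine (Finset.card_union_le _ _).trans ?_
    rw [Int.card_Ico, Int.card_Ioc]
    omega
  refine (Finset.sum_le_sum fun l _ => h2 l).trans ?_
  rw [Finset.sum_const, Finset.card_univ, Fintype.card_fin, smul_eq_mul]
  exact le_of_eq (by ring)

/-- translating the summand -/
theorem sum_shift {d : ℕ} {N W : ℕ} {a b w : Fin d → ℤ} (hab : ∀ l, -(N : ℤ) ≤ a l ∧ b l ≤ N)
    (hw : ∀ l, |w l| ≤ (W : ℤ)) (P : (Fin d → ℤ) → ℝ) (hP : ∀ x, |P x| ≤ 1) :
    |∑ x ∈ Finset.Icc a b, P x - ∑ x ∈ Finset.Icc a b, P (x + w)| ≤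
      2 * ((d * (2 * W) * (2 * N + 1) ^ (d - 1) : ℕ) : ℝ) := by
  classical
  have e1 : ∑ x ∈ Finset.Icc a b, P (x + w) = ∑ x ∈ Finset.Icc (a + w) (b + w), P x := by
    rw [← Finset.map_add_right_Icc, Finset.sum_map]
    rfl
  have hcard : (Finset.Icc a b).card = (Finset.Icc (a + w) (b + w)).card := by
    rw [← Finset.map_add_right_Icc, Finset.card_map]
  have hc := card_leave hab hw
  have hc' := hc
  rw [Finset.card_sdiff_comm hcard] at hc'
  rw [e1, ← Finset.sum_sdiff_sub_sum_sdiff]
  have b1 : ∀ s : Finset (Fin d → ℤ), |∑ x ∈ s, P x| ≤ (s.card : ℝ) := by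
    intro s
    refine (Finset.abs_sum_le_sum_abs _ _).trans ?_
    refine (Finset.sum_le_sum fun x _ => hP x).trans ?_
    rw [Finset.sum_const, nsmul_eq_mul, mul_one]
  refine (abs_sub _ _).trans ?_
  have h3 := b1 (Finset.Icc (a + w) (b + w) \ Finset.Icc a b)
  have h4 := b1 (Finset.Icc a b \ Finset.Icc (a + w) (b + w))
  have h5 : ((Finset.Icc a b \ Finset.Icc (a + w) (b + w)).card : ℝ) ≤
    ((d * (2 * W) * (2 * N + 1) ^ (d - 1) : ℕ) : ℝ) := by exact_mod_cast hc
  have h6 : ((Finset.Icc (a + w) (b + w) \ Finset.Icc a b).card : ℝ) ≤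
    ((d * (2 * W) * (2 * N + 1) ^ (d - 1) : ℕ) : ℝ) := by exact_mod_cast hc'
  linarith

/-- the points of a box with a given value of a nonzero form -/
theorem card_value {d : ℕ} {N : ℕ} {a b : Fin d → ℤ} (hab : ∀ l, -(N : ℤ) ≤ a l ∧ b l ≤ N)
    (L : Fin d → ℤ) (l₀ : Fin d) (hl : L l₀ ≠ 0) (c m : ℤ) :
    ((Finset.Icc a b).filter (fun x => ∑ l, L l * x l + c = m)).card ≤ (2 * N + 1) ^ (d - 1) := by
  classical
  have h1 : ((Finset.Icc a b).filter (fun x => ∑ l, L l * x l + c = m)).card ≤
      (Fintype.piFinset (Function.update (fun _ : Fin d => Finset.Icc (-(N : ℤ)) N) l₀ {0})).card := by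
    refine Finset.card_le_card_of_injOn (fun x => Function.update x l₀ 0) ?_ ?_
    · intro x hx
      have hx' := Finset.mem_filter.1 (Finset.mem_coe.1 hx)
      rw [Finset.mem_Icc] at hx'
      rw [Finset.mem_coe, Fintype.mem_piFinset]
      intro l'
      by_cases h : l' = l₀
      · subst h
        simp
      · simp only [Function.update_of_ne h, Finset.mem_Icc]
        exact ⟨(hab l').1.trans (hx'.1.1 l'), (hx'.1.2 l').trans (hab l').2⟩
    · intro x hx y hy hxy
      have hx' := (Finset.mem_filter.1 (Finset.mem_coe.1 hx)).2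
      have hy' := (Finset.mem_filter.1 (Finset.mem_coe.1 hy)).2
      have hne : ∀ l, l ≠ l₀ → x l = y l := by
        intro l h
        have := congrFun hxy l
        simpa only [Function.update_of_ne h] using this
      have h2 : ∑ l, L l * x l = ∑ l, L l * y l := by linarith
      rw [← Finset.add_sum_erase _ _ (Finset.mem_univ l₀), ← Finset.add_sum_erase _ _ (Finset.mem_univ l₀)] at h2
      have h3 : ∑ l ∈ Finset.univ.erase l₀, L l * x l = ∑ l ∈ Finset.univ.erase l₀, L l * y l :=
        Finset.sum_congr rfl fun l hl' => by rw [hne l (Finset.ne_of_mem_erase hl')]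
      have h4 : L l₀ * x l₀ = L l₀ * y l₀ := by linarith
      have h5 := mul_left_cancel₀ hl h4
      funext l
      by_cases h : l = l₀
      · rw [h, h5]
      · exact hne l h
  refine h1.trans ?_
  rw [Fintype.card_piFinset]
  have h2 : ∀ l' : Fin d, (Function.update (fun _ : Fin d => Finset.Icc (-(N : ℤ)) N) l₀ {0} l').card =
      Function.update (fun _ : Fin d => 2 * N + 1) l₀ 1 l' := by
    intro l'
    by_cases h : l' = l₀
    · subst h
      rw [Function.update_self, Function.update_self, Finset.card_singleton]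
    · rw [Function.update_of_ne h, Function.update_of_ne h, Int.card_Icc]
      omega
  rw [Finset.prod_congr rfl fun l' _ => h2 l', Finset.prod_update_of_mem (Finset.mem_univ l₀),
    Finset.prod_const, one_mul]
  refine le_of_eq ?_
  congr 1
  rw [← Finset.erase_eq, Finset.card_erase_of_mem (Finset.mem_univ l₀), Finset.card_univ, Fintype.card_fin]

theorem card_box {d : ℕ} {N : ℕ} {a b : Fin d → ℤ} (hab : ∀ l, -(N : ℤ) ≤ a l ∧ b l ≤ N) :
    (Finset.Icc a b).card ≤ (2 * N + 1) ^ d := by
  classical
  have h1 : Finset.Icc a b ⊆ Fintype.piFinset (fun _ : Fin d => Finset.Icc (-(N : ℤ)) N) := by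
    intro x hx
    rw [Finset.mem_Icc] at hx
    rw [Fintype.mem_piFinset]
    intro l'
    rw [Finset.mem_Icc]
    exact ⟨(hab l').1.trans (hx.1 l'), (hx.2 l').trans (hab l').2⟩
  refine (Finset.card_le_card h1).trans ?_
  rw [Fintype.card_piFinset, Finset.prod_const, Int.card_Icc, Finset.card_univ, Fintype.card_fin]
  refine le_of_eq ?_
  congr 1
  omega

end Pool.Agent.J4H80.QU.VN
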