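import Pool.Agent.J4H26.VN.A

set_option autoImplicit false

/-! Job E of project QU (generalised von Neumann theorem): the sum over the shifts for a fixed point. -/

namespace Pool.Agent.J4H80.QU.VN

open Finset

/-- the directions -/
theorem directions {d t : ℕ} (L : Fin t → Fin d → ℤ)
    (h1 : ∀ i, ∃ v : Fin d → ℤ, ∑ l, L i l * v l ≠ 0)
    (h2 : ∀ i j, i ≠ j → ∃ v : Fin d → ℤ, ∑ l, L j l * v l = 0 ∧ ∑ l, L i l * v l ≠ 0) :
    ∃ v : Fin t → Fin (t + 1) → Fin d → ℤ, ∀ i₀ k, (∑ l, L i₀ l * v i₀ k l ≠ 0) ∧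
      ∀ i : Fin t, i ≠ i₀ → i.castSucc = k → ∑ l, L i l * v i₀ k l = 0 := by
  have h : ∀ (i₀ : Fin t) (k : Fin (t + 1)), ∃ v : Fin d → ℤ, (∑ l, L i₀ l * v l ≠ 0) ∧
      ∀ i : Fin t, i ≠ i₀ → i.castSucc = k → ∑ l, L i l * v l = 0 := by
    intro i₀ k
    by_cases hk : ∃ i : Fin t, i ≠ i₀ ∧ i.castSucc = k
    · obtain ⟨i, hi, hik⟩ := hk
      obtain ⟨v, hv1, hv2⟩ := h2 i₀ i (Ne.symm hi)
      refine ⟨v, hv2, fun i' _ hik' => ?_⟩
      have : i' = i := Fin.castSucc_injective _ (hik'.trans hik.symm)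
      rw [this]
      exact hv1
    · push Not at hk
      obtain ⟨v, hv⟩ := h1 i₀
      exact ⟨v, hv, fun i hi hik => absurd hik (hk i hi)⟩
  choose v hv using h
  exact ⟨v, hv⟩

/-- the argument of the `i`-th function after the shift -/
def arg {d t H : ℕ} (L : Fin t → Fin d → ℤ) (c : Fin t → ℤ) (e : Fin t → Fin (t + 1) → ℤ) (i : Fin t)
    (x : Fin d → ℤ) (h : Fin (t + 1) → Fin H) : ℤ :=
  (∑ l, L i l * x l + c i) + ∑ k, e i k * (((h k : Fin H) : ℕ) : ℤ)

theorem arg_shift {d t H : ℕ} (L : Fin t → Fin d → ℤ) (c : Fin t → ℤ) (v : Fin (t + 1) → Fin d → ℤ) (i : Fin t)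
    (x : Fin d → ℤ) (h : Fin (t + 1) → Fin H) :
    ∑ l, L i l * (x l + ∑ k, (((h k : Fin H) : ℕ) : ℤ) * v k l) + c i =
      arg L c (fun i k => ∑ l, L i l * v k l) i x h := by
  unfold arg
  have e1 : ∀ l, L i l * (x l + ∑ k, (((h k : Fin H) : ℕ) : ℤ) * v k l) =
      L i l * x l + ∑ k, L i l * v k l * (((h k : Fin H) : ℕ) : ℤ) := by
    intro l
    rw [mul_add, Finset.mul_sum]
    congr 1
    exact Finset.sum_congr rfl fun k _ => by ring
  rw [Finset.sum_congr rfl fun l _ => e1 l, Finset.sum_add_distrib, Finset.sum_comm]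
  have e2 : ∀ k, ∑ l, L i l * v k l * (((h k : Fin H) : ℕ) : ℤ) = (∑ l, L i l * v k l) * (((h k : Fin H) : ℕ) : ℤ) :=
    fun k => (Finset.sum_mul _ _ _).symm
  rw [Finset.sum_congr rfl fun k _ => e2 k]
  ring

theorem arg_update {d t H : ℕ} (L : Fin t → Fin d → ℤ) (c : Fin t → ℤ) (e : Fin t → Fin (t + 1) → ℤ) (i : Fin t)
    (x : Fin d → ℤ) (h : Fin (t + 1) → Fin H) (j : Fin (t + 1)) (hj : e i j = 0) (u : Fin H) :
    arg L c e i x (Function.update h j u) = arg L c e i x h := by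
  unfold arg
  congr 1
  refine Finset.sum_congr rfl fun k _ => ?_
  by_cases hk : k = j
  · subst hk
    rw [hj, zero_mul, zero_mul]
  · rw [Function.update_of_ne hk]

/-- box Cauchy-Schwarz for a fixed point -/
theorem point_bound (hCS : S_BOXCS) {d t H : ℕ} (L : Fin t → Fin d → ℤ) (c : Fin t → ℤ)
    (e : Fin t → Fin (t + 1) → ℤ) (i₀ : Fin t) (he : ∀ i : Fin t, i ≠ i₀ → e i i.castSucc = 0)
    (f : Fin t → ℤ → ℝ) (hf : ∀ i n, |f i n| ≤ 1) (x : Fin d → ℤ) :
    |∑ h : Fin (t + 1) → Fin H, ∏ i, f i (arg L c e i x h)| ^ (2 ^ (t + 1)) ≤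
      (H : ℝ) ^ ((t + 1) * 2 ^ (t + 1) - 2 * (t + 1)) *
        Box (t + 1) (fun h : Fin (t + 1) → Fin H => f i₀ (arg L c e i₀ x h)) := by
  classical
  set B : Fin (t + 1) → (Fin (t + 1) → Fin H) → ℂ :=
    Fin.snoc (α := fun _ => (Fin (t + 1) → Fin H) → ℂ)
      (fun i h => if i = i₀ then 1 else ((f i (arg L c e i x h) : ℝ) : ℂ)) (fun _ => 1) with hB
  have hBc : ∀ (i : Fin t) h, B i.castSucc h = if i = i₀ then 1 else ((f i (arg L c e i x h) : ℝ) : ℂ) := by
    intro i h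
    rw [hB, Fin.snoc_castSucc]
  have hBl : ∀ h, B (Fin.last t) h = 1 := by
    intro h
    rw [hB, Fin.snoc_last]
  have hB1 : ∀ j h, ‖B j h‖ ≤ 1 := by
    intro j h
    refine Fin.lastCases ?_ (fun i => ?_) j
    · rw [hBl, norm_one]
    · rw [hBc]
      split_ifs
      · rw [norm_one]
      · rw [Complex.norm_real, Real.norm_eq_abs]
        exact hf _ _
  have hB2 : ∀ j h u, B j (Function.update h j u) = B j h := by
    intro j h u
    refine Fin.lastCases ?_ (fun i => ?_) j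
    · rw [hBl, hBl]
    · rw [hBc, hBc]
      split_ifs with hi
      · rfl
      · rw [arg_update L c e i x h _ (he i hi) u]
  have key := hCS (Fin H) t (fun h => f i₀ (arg L c e i₀ x h)) B hB1 hB2
  rw [Fintype.card_fin] at key
  refine le_trans (le_of_eq ?_) key
  congr 1
  rw [← Real.norm_eq_abs, ← Complex.norm_real]
  congr 1
  push_cast
  refine Finset.sum_congr rfl fun h _ => ?_
  rw [Fin.prod_univ_castSucc, hBl, mul_one, Finset.prod_congr rfl fun i _ => hBc i h]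
  rw [← Finset.mul_prod_erase _ _ (Finset.mem_univ i₀),
    ← Finset.mul_prod_erase _ (fun i => if i = i₀ then (1 : ℂ) else ((f i (arg L c e i x h) : ℝ) : ℂ))
      (Finset.mem_univ i₀), if_pos rfl, one_mul]
  congr 1
  refine Finset.prod_congr rfl fun i hi => ?_
  rw [if_neg (Finset.ne_of_mem_erase hi)]

/-- an integer of small absolute value is recovered from its residue -/
theorem vma {p : ℕ} [NeZero p] {m : ℤ} (hm : 2 * |m| < p) : ((m : ℤ) : ZMod p).valMinAbs = m := by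
  rw [ZMod.valMinAbs_spec]
  refine ⟨rfl, ?_⟩
  have h1 := abs_lt.1 (show |2 * m| < (p : ℤ) by rw [abs_mul]; simpa using hm)
  constructor <;> linarith

end Pool.Agent.J4H80.QU.VN
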