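import Pool.Agent.J4H26.VN.B

set_option autoImplicit false

/-! Job E of project QU (generalised von Neumann theorem): the sum over the points. -/

namespace Pool.Agent.J4H80.QU.VN

open Finset

theorem abs_form {n : ℕ} (u y : Fin n → ℤ) (N : ℕ) (hy : ∀ l, |y l| ≤ (N : ℤ)) :
    |∑ l, u l * y l| ≤ ((∑ l, (u l).natAbs : ℕ) : ℤ) * N := by
  refine (Finset.abs_sum_le_sum_abs _ _).trans ?_
  push_cast
  rw [Finset.sum_mul]
  refine Finset.sum_le_sum fun l _ => ?_
  rw [abs_mul]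
  exact mul_le_mul_of_nonneg_left (hy l) (abs_nonneg _)

/-- sum over the points of a box of the box norms -/
theorem sum_points (hRES : S_BOXRES) {d t H N A Q : ℕ} (hQ : 8 * (A + 1) ≤ Q) (hHN : H ≤ N) (hN : 1 ≤ N)
    {a b : Fin (d + 1) → ℤ} (hab : ∀ l, -(N : ℤ) ≤ a l ∧ b l ≤ N) (L : Fin (d + 1) → ℤ) (c : ℤ)
    (l₀ : Fin (d + 1)) (hl₀ : L l₀ ≠ 0) (e : Fin (t + 2) → ℤ) (he : ∀ k, e k ≠ 0)
    (hA : (∑ l, (L l).natAbs) + c.natAbs + (∑ k, (e k).natAbs) ≤ A) (f : ℤ → ℝ) :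
    ∑ x ∈ Finset.Icc a b, Box (t + 2) (fun h : Fin (t + 2) → Fin H =>
        f ((∑ l, L l * x l + c) + ∑ k, e k * (((h k : Fin H) : ℕ) : ℤ))) ≤
      (2 * (N : ℝ) + 1) ^ d * ((H : ℝ) ^ (t + 2) *
        UG (t + 2) (fun x : ZMod (Q * N + 1) => if |x.valMinAbs| ≤ (A : ℤ) * N then f x.valMinAbs else 0)) := by
  classical
  set G : ZMod (Q * N + 1) → ℝ := fun x => if |x.valMinAbs| ≤ (A : ℤ) * N then f x.valMinAbs else 0 with hG
  set ei : Fin (t + 2) → Fin H → ZMod (Q * N + 1) := fun k u => ((e k * ((u : ℕ) : ℤ) : ℤ) : ZMod (Q * N + 1)) with hei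
  set BX : ZMod (Q * N + 1) → ℝ := fun y => Box (t + 2) (fun h : Fin (t + 2) → Fin H => G (y + ∑ k, ei k (h k))) with hBX
  have hNz : (1 : ℤ) ≤ N := by exact_mod_cast hN
  -- sizes
  have hx : ∀ x ∈ Finset.Icc a b, |∑ l, L l * x l + c| ≤ (((∑ l, (L l).natAbs) + c.natAbs : ℕ) : ℤ) * N := by
    intro x hx
    rw [Finset.mem_Icc] at hx
    have h1 := abs_form L x N fun l => abs_le.2 ⟨(hab l).1.trans (hx.1 l), (hx.2 l).trans (hab l).2⟩
    refine (abs_add_le _ _).trans ?_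
    push_cast at h1 ⊢
    have h2 : |c| ≤ |c| * N := by nlinarith [abs_nonneg c]
    linarith
  have hh : ∀ h : Fin (t + 2) → Fin H, |∑ k, e k * (((h k : Fin H) : ℕ) : ℤ)| ≤ ((∑ k, (e k).natAbs : ℕ) : ℤ) * N := by
    intro h
    refine abs_form e _ N fun k => ?_
    rw [Nat.abs_cast]
    have := (h k).2
    exact_mod_cast (this.le.trans hHN)
  have hAz : ((((∑ l, (L l).natAbs) + c.natAbs : ℕ) : ℤ) * N) + ((∑ k, (e k).natAbs : ℕ) : ℤ) * N ≤ (A : ℤ) * N := by
    rw [← add_mul]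
    refine mul_le_mul_of_nonneg_right ?_ (by positivity)
    exact_mod_cast hA
  have hAQ : 2 * ((A : ℤ) * N) < ((Q * N + 1 : ℕ) : ℤ) := by
    push_cast
    have : (8 * ((A : ℤ) + 1)) ≤ Q := by exact_mod_cast hQ
    have h3 : (8 * ((A : ℤ) + 1)) * N ≤ Q * N := mul_le_mul_of_nonneg_right this (by positivity)
    have h4 : (0 : ℤ) ≤ (A : ℤ) * N := by positivity
    nlinarith
  have hval : ∀ x ∈ Finset.Icc a b, ∀ h : Fin (t + 2) → Fin H,
      f ((∑ l, L l * x l + c) + ∑ k, e k * (((h k : Fin H) : ℕ) : ℤ)) =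
        G (((∑ l, L l * x l + c : ℤ) : ZMod (Q * N + 1)) + ∑ k, ei k (h k)) := by
    intro x hxm h
    have h1 : |(∑ l, L l * x l + c) + ∑ k, e k * (((h k : Fin H) : ℕ) : ℤ)| ≤ (A : ℤ) * N :=
      (abs_add_le _ _).trans ((add_le_add (hx x hxm) (hh h)).trans hAz)
    have h2 : (((∑ l, L l * x l + c : ℤ) : ZMod (Q * N + 1)) + ∑ k, ei k (h k)) =
        (((∑ l, L l * x l + c) + ∑ k, e k * (((h k : Fin H) : ℕ) : ℤ) : ℤ) : ZMod (Q * N + 1)) := by
      rw [hei]
      push_cast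
      rfl
    rw [h2, hG]
    simp only
    rw [vma (by linarith), if_pos h1]
  have hsum : ∑ x ∈ Finset.Icc a b, Box (t + 2) (fun h : Fin (t + 2) → Fin H =>
        f ((∑ l, L l * x l + c) + ∑ k, e k * (((h k : Fin H) : ℕ) : ℤ))) =
      ∑ x ∈ Finset.Icc a b, BX ((∑ l, L l * x l + c : ℤ) : ZMod (Q * N + 1)) := by
    refine Finset.sum_congr rfl fun x hxm => ?_
    rw [hBX]
    simp only
    congr 1
    funext h
    exact hval x hxm h
  have hBX0 : ∀ y, 0 ≤ BX y := fun y => Box_nonneg (t + 1) _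
  have hinj : ∀ k, Function.Injective (ei k) := by
    intro k u u' huu
    rw [hei] at huu
    simp only at huu
    have hb : ∀ u : Fin H, |e k * ((u : ℕ) : ℤ)| ≤ (A : ℤ) * N := by
      intro u
      rw [abs_mul, Nat.abs_cast]
      have h1 : |e k| ≤ (A : ℤ) := by
        rw [← Int.natCast_natAbs]
        have h2 : (e k).natAbs ≤ ∑ k, (e k).natAbs := Finset.single_le_sum (f := fun k => (e k).natAbs)
          (fun _ _ => Nat.zero_le _) (Finset.mem_univ k)
        have h3 : (e k).natAbs ≤ A := by omega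
        exact_mod_cast h3
      have h4 : ((u : ℕ) : ℤ) ≤ N := by
        have := u.2
        exact_mod_cast (this.le.trans hHN)
      exact mul_le_mul h1 h4 (by positivity) (by positivity)
    have h1 := congrArg ZMod.valMinAbs huu
    rw [vma (by linarith [hb u]), vma (by linarith [hb u'])] at h1
    have h2 := mul_left_cancel₀ (he k) h1
    exact Fin.ext (by exact_mod_cast h2)
  have hR := hRES (ZMod (Q * N + 1)) (Fin H) t G ei hinj
  rw [Fintype.card_fin] at hR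
  rw [hsum]
  have hfib : ∑ x ∈ Finset.Icc a b, BX ((∑ l, L l * x l + c : ℤ) : ZMod (Q * N + 1)) ≤
      ∑ y : ZMod (Q * N + 1), (2 * (N : ℝ) + 1) ^ d * BX y := by
    rw [← Finset.sum_fiberwise (Finset.Icc a b) (fun x => ((∑ l, L l * x l + c : ℤ) : ZMod (Q * N + 1)))]
    refine Finset.sum_le_sum fun y _ => ?_
    have h1 : ∀ x ∈ (Finset.Icc a b).filter (fun x => ((∑ l, L l * x l + c : ℤ) : ZMod (Q * N + 1)) = y),
        BX ((∑ l, L l * x l + c : ℤ) : ZMod (Q * N + 1)) = BX y := by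
      intro x hxm
      rw [(Finset.mem_filter.1 hxm).2]
    rw [Finset.sum_congr rfl h1, Finset.sum_const, nsmul_eq_mul]
    refine mul_le_mul_of_nonneg_right ?_ (hBX0 y)
    have h2 : (Finset.Icc a b).filter (fun x => ((∑ l, L l * x l + c : ℤ) : ZMod (Q * N + 1)) = y) ⊆
        (Finset.Icc a b).filter (fun x => ∑ l, L l * x l + c = y.valMinAbs) := by
      intro x hxm
      rw [Finset.mem_filter] at hxm ⊢
      refine ⟨hxm.1, ?_⟩
      rw [← hxm.2, vma]
      have h3 := hx x hxm.1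
      have h4 : (0 : ℤ) ≤ ((∑ k, (e k).natAbs : ℕ) : ℤ) * N := by positivity
      linarith
    have h3 := (Finset.card_le_card h2).trans (card_value hab L l₀ hl₀ c y.valMinAbs)
    rw [Nat.add_sub_cancel] at h3
    calc (((Finset.Icc a b).filter (fun x => ((∑ l, L l * x l + c : ℤ) : ZMod (Q * N + 1)) = y)).card : ℝ)
        ≤ (((2 * N + 1) ^ d : ℕ) : ℝ) := by exact_mod_cast h3
      _ = (2 * (N : ℝ) + 1) ^ d := by push_cast; rfl
  refine hfib.trans ?_
  rw [← Finset.mul_sum]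
  exact mul_le_mul_of_nonneg_left hR (by positivity)

end Pool.Agent.J4H80.QU.VN
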