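import Pool.Agent.J4H26.VN.C

set_option autoImplicit false

/-! Job E of project QU: the generalised von Neumann theorem. -/

namespace Pool.Agent.J4H80.QU.VN

open Finset

/-- the final numerical step -/
theorem numer {d t m : ℕ} {N H κ ε U n : ℝ} (hN : 1 ≤ N) (hκ : 0 < κ) (hε : 0 < ε) (hH : κ / 2 * N ≤ H)
    (hn0 : 0 ≤ n) (hn : n ≤ 3 * N) (hU0 : 0 ≤ U)
    (hU : U ^ (m + 2) ≤ (n ^ (d + 1)) ^ (m + 1) * (H ^ ((t + 2) * m) * (n ^ d * (H ^ (t + 2) *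
      ((ε / 2) ^ (m + 2) * (κ / 2) ^ (t + 2) / (3 ^ (d + 1)) ^ (m + 2) * N ^ (t + 3)))))) :
    U ≤ ε / 2 * N ^ (d + 1) * H ^ (t + 2) := by
  have hN0 : 0 < N := by linarith
  have hH0 : 0 ≤ H := le_trans (by positivity) hH
  refine le_of_pow_le_pow_left₀ (show m + 2 ≠ 0 by omega) (by positivity) (hU.trans ?_)
  have h1 : (n ^ (d + 1)) ^ (m + 1) ≤ ((3 * N) ^ (d + 1)) ^ (m + 1) := by gcongr
  have h2 : n ^ d * N ≤ (3 * N) ^ (d + 1) := by
    calc n ^ d * N ≤ (3 * N) ^ d * (3 * N) := by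
          gcongr
          linarith
      _ = (3 * N) ^ (d + 1) := by ring
  have h3 : (κ / 2 * N) ^ (t + 2) ≤ H ^ (t + 2) := by gcongr
  calc (n ^ (d + 1)) ^ (m + 1) * (H ^ ((t + 2) * m) * (n ^ d * (H ^ (t + 2) *
      ((ε / 2) ^ (m + 2) * (κ / 2) ^ (t + 2) / (3 ^ (d + 1)) ^ (m + 2) * N ^ (t + 3)))))
      = ((n ^ (d + 1)) ^ (m + 1) * (n ^ d * N)) * (H ^ ((t + 2) * m) * H ^ (t + 2)) *
        ((ε / 2) ^ (m + 2) * (κ / 2 * N) ^ (t + 2) / (3 ^ (d + 1)) ^ (m + 2)) := by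
        rw [mul_pow (κ / 2) N, show t + 3 = (t + 2) + 1 from rfl, pow_succ N (t + 2)]
        ring
    _ ≤ (((3 * N) ^ (d + 1)) ^ (m + 1) * (3 * N) ^ (d + 1)) * (H ^ ((t + 2) * m) * H ^ (t + 2)) *
        ((ε / 2) ^ (m + 2) * H ^ (t + 2) / (3 ^ (d + 1)) ^ (m + 2)) := by
        gcongr
    _ = (ε / 2 * N ^ (d + 1) * H ^ (t + 2)) ^ (m + 2) := by
        have e1 : ((3 * N) ^ (d + 1)) ^ (m + 1) * (3 * N) ^ (d + 1) =
            (3 ^ (d + 1)) ^ (m + 2) * (N ^ (d + 1)) ^ (m + 2) := by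
          rw [mul_pow, ← pow_succ, mul_pow]
        have e2 : H ^ ((t + 2) * m) * H ^ (t + 2) * H ^ (t + 2) = (H ^ (t + 2)) ^ (m + 2) := by
          rw [pow_mul]
          ring
        rw [e1, mul_pow, mul_pow, ← e2]
        have h5 : ((3 : ℝ) ^ (d + 1)) ^ (m + 2) ≠ 0 := by positivity
        field_simp

end Pool.Agent.J4H80.QU.VN

namespace Pool.Agent.J4H80.QU

open Finset VN

/-- **The generalised von Neumann theorem** (job E). -/
theorem t_VN (hCS : S_BOXCS) (hRES : S_BOXRES) : S_VN := by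
  classical
  intro d t L c h1 h2 ε hε
  rcases t with _ | t
  · exact ⟨0, 8, 0, 1, one_pos, by norm_num, fun N _ a b _ f _ i₀ => i₀.elim0⟩
  rcases d with _ | d
  · obtain ⟨v, hv⟩ := h1 0
    simp at hv
  obtain ⟨v, hv⟩ := directions L h1 h2
  have hex : ∀ i₀ : Fin (t + 1), ∃ l₀, L i₀ l₀ ≠ 0 := by
    intro i₀
    by_contra hcon
    push Not at hcon
    obtain ⟨w, hw⟩ := h1 i₀
    exact hw (Finset.sum_eq_zero fun l _ => by rw [hcon l, zero_mul])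
  set e : Fin (t + 1) → Fin (t + 1) → Fin (t + 2) → ℤ := fun i₀ i k => ∑ l, L i l * v i₀ k l with he
  set V : ℕ := ∑ i, ∑ k, ∑ l, (v i k l).natAbs with hV
  set A : ℕ := (∑ i, ∑ l, (L i l).natAbs) + (∑ i, (c i).natAbs) + (∑ i, ∑ k, (e i i k).natAbs) with hA
  set κ : ℝ := min 1 (ε / (8 * (d + 1) * (V + 1) * 3 ^ d)) with hκdef
  have hκ : 0 < κ := lt_min one_pos (by positivity)
  have hκ1 : κ ≤ 1 := min_le_left _ _
  have hκ2 : κ * (8 * (d + 1) * (V + 1) * 3 ^ d) ≤ ε := by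
    have h3 : κ ≤ ε / (8 * (d + 1) * (V + 1) * 3 ^ d) := min_le_right _ _
    rwa [le_div_iff₀ (by positivity)] at h3
  refine ⟨A, 8 * (A + 1), ⌈2 / κ⌉₊ + 1, (ε / 2) ^ (2 ^ (t + 2)) * (κ / 2) ^ (t + 2) / (3 ^ (d + 1)) ^ (2 ^ (t + 2)),
    by positivity, le_rfl, fun N hN a b hab f hf i₀ hUG => ?_⟩
  have hN1 : 1 ≤ N := by omega
  have hNr : (1 : ℝ) ≤ N := by exact_mod_cast hN1
  have hN2 : 2 / κ ≤ N := by
    refine (Nat.le_ceil _).trans ?_
    exact_mod_cast (show ⌈2 / κ⌉₊ ≤ N by omega)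
  rw [div_le_iff₀ hκ] at hN2
  set H : ℕ := ⌊κ * N⌋₊ with hHdef
  have hHle : (H : ℝ) ≤ κ * N := Nat.floor_le (by positivity)
  have hHge : κ / 2 * N ≤ H := by
    have := Nat.lt_floor_add_one (κ * (N : ℝ))
    rw [← hHdef] at this
    nlinarith
  have hHpos : (0 : ℝ) < H := lt_of_lt_of_le (by positivity) hHge
  have hHN : H ≤ N := by
    have : (H : ℝ) ≤ N := hHle.trans (mul_le_of_le_one_left (by positivity) hκ1)
    exact_mod_cast this
  obtain ⟨m, hm⟩ : ∃ m, 2 ^ (t + 2) = m + 2 := by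
    refine ⟨2 ^ (t + 2) - 2, ?_⟩
    have : 2 ^ 1 ≤ 2 ^ (t + 2) := Nat.pow_le_pow_right (by norm_num) (by omega)
    omega
  -- the sum over the shifts at a point
  set S : (Fin (d + 1) → ℤ) → ℝ := fun x => ∑ h : Fin (t + 2) → Fin H, ∏ i, f i (arg L c (e i₀) i x h) with hS
  set P : (Fin (d + 1) → ℤ) → ℝ := fun x => ∏ i, f i (∑ l, L i l * x l + c i) with hP
  have hP1 : ∀ x, |P x| ≤ 1 := by
    intro x
    rw [hP]
    simp only
    rw [Finset.abs_prod]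
    exact Finset.prod_le_one (fun _ _ => abs_nonneg _) fun i _ => hf i _
  set w : (Fin (t + 2) → Fin H) → Fin (d + 1) → ℤ := fun h l => ∑ k, (((h k : Fin H) : ℕ) : ℤ) * v i₀ k l with hw
  have hwle : ∀ h l, |w h l| ≤ ((H * V : ℕ) : ℤ) := by
    intro h l
    rw [hw]
    simp only
    refine (Finset.abs_sum_le_sum_abs _ _).trans ?_
    have h3 : ∀ k, |(((h k : Fin H) : ℕ) : ℤ) * v i₀ k l| ≤ (H : ℤ) * ((v i₀ k l).natAbs : ℤ) := by
      intro k
      rw [abs_mul, Nat.abs_cast, Int.natCast_natAbs]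
      refine mul_le_mul_of_nonneg_right ?_ (abs_nonneg _)
      exact_mod_cast (h k).2.le
    refine (Finset.sum_le_sum fun k _ => h3 k).trans ?_
    rw [← Finset.mul_sum]
    push_cast
    refine mul_le_mul_of_nonneg_left ?_ (by positivity)
    have h4 : ∑ k, (v i₀ k l).natAbs ≤ V := by
      rw [hV]
      calc ∑ k, (v i₀ k l).natAbs ≤ ∑ k, ∑ l, (v i₀ k l).natAbs := Finset.sum_le_sum fun k _ =>
            Finset.single_le_sum (f := fun l => (v i₀ k l).natAbs) (fun _ _ => Nat.zero_le _) (Finset.mem_univ l)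
        _ ≤ _ := Finset.single_le_sum (f := fun i => ∑ k, ∑ l, (v i k l).natAbs) (fun _ _ => Nat.zero_le _)
            (Finset.mem_univ i₀)
    have h5 : ((∑ k, (v i₀ k l).natAbs : ℕ) : ℤ) ≤ (V : ℤ) := by exact_mod_cast h4
    push_cast at h5
    simpa using h5
  set T : ℝ := ∑ x ∈ Finset.Icc a b, P x with hT
  set Err : ℝ := 2 * ((((d + 1) * (2 * (H * V)) * (2 * N + 1) ^ (d + 1 - 1) : ℕ)) : ℝ) with hErr
  have hshift : ∀ h, |T - ∑ x ∈ Finset.Icc a b, P (x + w h)| ≤ Err := fun h =>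
    sum_shift (W := H * V) hab (hwle h) P hP1
  have hPS : ∀ x, ∑ h, P (x + w h) = S x := by
    intro x
    rw [hS, hP]
    simp only
    refine Finset.sum_congr rfl fun h _ => Finset.prod_congr rfl fun i _ => ?_
    congr 1
    exact arg_shift L c (v i₀) i x h
  have hcardH : (Fintype.card (Fin (t + 2) → Fin H) : ℝ) = (H : ℝ) ^ (t + 2) := by
    rw [Fintype.card_fun, Fintype.card_fin, Fintype.card_fin]
    push_cast
    rfl
  have hmain : (H : ℝ) ^ (t + 2) * |T| ≤ (H : ℝ) ^ (t + 2) * Err + ∑ x ∈ Finset.Icc a b, |S x| := by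
    have e1 : (H : ℝ) ^ (t + 2) * T = ∑ h : Fin (t + 2) → Fin H, (T - ∑ x ∈ Finset.Icc a b, P (x + w h)) +
        ∑ x ∈ Finset.Icc a b, S x := by
      rw [Finset.sum_sub_distrib, Finset.sum_const, nsmul_eq_mul, Finset.card_univ, hcardH, Finset.sum_comm,
        Finset.sum_congr rfl fun x _ => hPS x]
      ring
    have e2 : (H : ℝ) ^ (t + 2) * |T| = |(H : ℝ) ^ (t + 2) * T| := by
      rw [abs_mul, abs_of_nonneg (by positivity : (0:ℝ) ≤ (H : ℝ) ^ (t + 2))]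
    rw [e2, e1]
    refine (abs_add_le _ _).trans (add_le_add ?_ (Finset.abs_sum_le_sum_abs _ _))
    refine (Finset.abs_sum_le_sum_abs _ _).trans ((Finset.sum_le_sum fun h _ => hshift h).trans ?_)
    rw [Finset.sum_const, nsmul_eq_mul, Finset.card_univ, hcardH]
  -- the bound for the sum of the `|S x|`
  obtain ⟨l₀, hl₀⟩ := hex i₀
  have hAi : (∑ l, (L i₀ l).natAbs) + (c i₀).natAbs + (∑ k, (e i₀ i₀ k).natAbs) ≤ A := by
    rw [hA]
    have b1 : ∑ l, (L i₀ l).natAbs ≤ ∑ i, ∑ l, (L i l).natAbs :=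
      Finset.single_le_sum (f := fun i => ∑ l, (L i l).natAbs) (fun _ _ => Nat.zero_le _) (Finset.mem_univ i₀)
    have b2 : (c i₀).natAbs ≤ ∑ i, (c i).natAbs :=
      Finset.single_le_sum (f := fun i => (c i).natAbs) (fun _ _ => Nat.zero_le _) (Finset.mem_univ i₀)
    have b3 : ∑ k, (e i₀ i₀ k).natAbs ≤ ∑ i, ∑ k, (e i i k).natAbs :=
      Finset.single_le_sum (f := fun i => ∑ k, (e i i k).natAbs) (fun _ _ => Nat.zero_le _) (Finset.mem_univ i₀)
    omega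
  have hpt : ∀ x, |S x| ^ (m + 2) ≤ (H : ℝ) ^ ((t + 2) * m) *
      Box (t + 2) (fun h : Fin (t + 2) → Fin H => f i₀ (arg L c (e i₀) i₀ x h)) := by
    intro x
    have h3 := point_bound hCS (H := H) L c (e i₀) i₀ (fun i hi => (hv i₀ i.castSucc).2 i hi rfl) f hf x
    have h4 : (t + 1 + 1) * 2 ^ (t + 1 + 1) - 2 * (t + 1 + 1) = (t + 2) * m := by
      rw [show t + 1 + 1 = t + 2 from rfl, hm, mul_add, mul_comm (t + 2) 2, Nat.add_sub_cancel]
    have hm' : 2 ^ (t + 1 + 1) = m + 2 := hm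
    rw [h4, hm'] at h3
    exact h3
  have hsumB := sum_points hRES (t := t) (H := H) (N := N) (A := A) (Q := 8 * (A + 1)) le_rfl hHN hN1 hab (L i₀) (c i₀)
    l₀ hl₀ (e i₀ i₀) (fun k => (hv i₀ k).1) hAi (f i₀)
  have hSum : (∑ x ∈ Finset.Icc a b, |S x|) ^ (m + 2) ≤ ((2 * (N : ℝ) + 1) ^ (d + 1)) ^ (m + 1) *
      ((H : ℝ) ^ ((t + 2) * m) * ((2 * (N : ℝ) + 1) ^ d * ((H : ℝ) ^ (t + 2) *
      ((ε / 2) ^ (m + 2) * (κ / 2) ^ (t + 2) / (3 ^ (d + 1)) ^ (m + 2) * (N : ℝ) ^ (t + 3))))) := by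
    have h3 := pow_sum_le_card_mul_sum_pow (s := Finset.Icc a b) (f := fun x => |S x|) (fun x _ => abs_nonneg _) (m + 1)
    refine h3.trans ?_
    have h4 : ((Finset.Icc a b).card : ℝ) ≤ (2 * (N : ℝ) + 1) ^ (d + 1) := by
      have := card_box hab
      exact_mod_cast this
    have h5 : ∑ x ∈ Finset.Icc a b, |S x| ^ (m + 1 + 1) ≤ (H : ℝ) ^ ((t + 2) * m) *
        ((2 * (N : ℝ) + 1) ^ d * ((H : ℝ) ^ (t + 2) *
        ((ε / 2) ^ (m + 2) * (κ / 2) ^ (t + 2) / (3 ^ (d + 1)) ^ (m + 2) * (N : ℝ) ^ (t + 3)))) := by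
      refine (Finset.sum_le_sum fun x _ => hpt x).trans ?_
      rw [← Finset.mul_sum]
      refine mul_le_mul_of_nonneg_left (hsumB.trans ?_) (by positivity)
      refine mul_le_mul_of_nonneg_left (mul_le_mul_of_nonneg_left ?_ (by positivity)) (by positivity)
      rw [← hm]
      exact hUG
    gcongr
  have hU := numer (d := d) (t := t) (m := m) hNr hκ hε hHge (by positivity) (by linarith)
    (Finset.sum_nonneg fun x _ => abs_nonneg (S x)) hSum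
  have hE : Err ≤ ε / 2 * (N : ℝ) ^ (d + 1) := by
    rw [hErr, Nat.add_sub_cancel]
    push_cast
    calc 2 * (((d : ℝ) + 1) * (2 * ((H : ℝ) * V)) * (2 * (N : ℝ) + 1) ^ d)
        ≤ 2 * (((d : ℝ) + 1) * (2 * ((κ * N) * (V + 1))) * (3 * (N : ℝ)) ^ d) := by
          gcongr
          · linarith
          · linarith
      _ = (κ * (8 * (d + 1) * (V + 1) * 3 ^ d)) / 2 * (N : ℝ) ^ (d + 1) := by
          rw [mul_pow]
          ring
      _ ≤ ε / 2 * (N : ℝ) ^ (d + 1) := by gcongr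
  have hfin : (H : ℝ) ^ (t + 2) * |T| ≤ (H : ℝ) ^ (t + 2) * (ε * (N : ℝ) ^ (d + 1)) := by
    refine hmain.trans ?_
    calc (H : ℝ) ^ (t + 2) * Err + ∑ x ∈ Finset.Icc a b, |S x|
        ≤ (H : ℝ) ^ (t + 2) * (ε / 2 * (N : ℝ) ^ (d + 1)) + ε / 2 * (N : ℝ) ^ (d + 1) * (H : ℝ) ^ (t + 2) := by gcongr
      _ = _ := by ring
  exact le_of_mul_le_mul_left hfin (by positivity)

end Pool.Agent.J4H80.QU
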